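import Pool.Agent.Run7.h788.ExpSp2
import Pool.Agent.H340R2.LW

/-!
# The powers `π ^ {P(π)}` and the products of powers `e ^ {R(π)} ∏ α_j ^ {Q_j(π)}`

The number `π ^ π` is the member `P = x` of the family `π ^ {P(π)}`, `P` a polynomial with algebraic
coefficients.  We compare this family with the products `e ^ {R(π)} ∏_j α_j ^ {Q_j(π)}` of any number of
powers of algebraic numbers `α_j`, where `R`, `Q_j` are polynomials of degree at most `E` with algebraic
coefficients (for `E = 0` these products include the algebraic numbers, and the members `2 ^ √2`,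
`e ^ √3 · 5 ^ i` of the multiplicative group generated by the powers `α^β` and `e^β`; for `E = 1` also
`2 ^ π`, `e ^ π` and so on).

Let `LogForms` be the space of the linear forms in `1` and logarithms of algebraic numbers, with algebraic
coefficients, and let `logPolynomials E` be the space of the values at `π` of the polynomials of degree at
most `E` with coefficients in `LogForms`.

**Theorem.** (1) For every complex number `z ≠ 0` (for instance `z = log π`) the polynomials `P` of degree
at most `D` with algebraic coefficients for which `z P(π)` is in `logPolynomials E` form a space of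
dimension at most `(E + 1) (2 √D + (E + 1)²)`, out of `D + 1`.

(2) If `P_1, …, P_m` are polynomials of degree at most `D` with algebraic coefficients which are linearly
independent over the field of algebraic numbers, and `m` is larger than this bound, then one of the powers
`π ^ {P_i(π)} = exp(P_i(π) log π)` is not a product `e ^ {R(π)} ∏_j α_j ^ {Q_j(π)}` with any number of
algebraic numbers `α_j ≠ 0`, any values of the powers and any `R`, `Q_j` of degree at most `E`.

(3) At most `2 √D + 1` of the numbers `π ^ (π ^ n)`, `0 ≤ n ≤ D`, are algebraic.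

In `PowersTimesPowersOfPi` on this problem it is shown that for most integers `n` the numbers `n ^ x π ^ y`
with exponents in `ℚ̄(π)`, `x` not algebraic, are transcendental; here the base is `π` and the exponents are
arbitrary, and also the powers with polynomial exponents of all algebraic numbers are divided out.

**The proof.**  Let `W` be the space of the numbers `z P(π)` in question.  We lift the elements of `W` to
polynomials with coefficients in `LogForms` and take a part `U` of the space of these polynomials, of
dimension at least `dim W / (E + 1)`, whose nonzero elements have the same degree.  The products of elements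
of `U` with polynomials of degree less than `h` satisfy no formal relations, but their values are in a
space of dimension at most `D + h`; so there are at least `h dim U - D - h` linearly independent relations
`∑_{s < h + E} π^s λ_s = 0` with `λ_s` in `LogForms`.  By the hyperplane case of the linear subgroup
theorem of Waldschmidt and Roy (`Pool.Agent.W254.HP.hyperplane`) there are at most
`(h + E) (h + E - 1)`.  One chooses `h` near `√D` (`Run7.h788.ExpSp.product_LE`, for any transcendental
number in place of `π`).
-/

set_option autoImplicit false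

noncomputable section

namespace Pool.Agent.Results.MP_4c2ad3_nt.PolynomialExponents

open Polynomial

/-- The field of algebraic numbers. -/
abbrev Qbar : IntermediateField ℚ ℂ := algebraicClosure ℚ ℂ

/-- The linear combinations, with algebraic coefficients, of `1` and logarithms of algebraic numbers. -/
def LogForms : Submodule Qbar ℂ :=
  Submodule.span Qbar ({1} ∪ {z : ℂ | IsAlgebraic ℚ (Complex.exp z)})

/-- The polynomials in `π` of degree at most `E` with coefficients in `LogForms`. -/
def logPolynomials (E : ℕ) : Submodule Qbar ℂ :=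
  Submodule.span Qbar {w : ℂ | ∃ i ≤ E, ∃ l ∈ LogForms, w = (Real.pi : ℂ) ^ i * l}

/-- The polynomials `P` of degree at most `D` such that `z P(π)` is in `logPolynomials E`. -/
def exponents (z : ℂ) (D E : ℕ) : Submodule Qbar Qbar[X] :=
  degreeLT Qbar (D + 1) ⊓
    (logPolynomials E).comap ((LinearMap.mulLeft Qbar z).comp (aeval (Real.pi : ℂ)).toLinearMap)

/-- The bound. -/
def bound (D E : ℕ) : ℝ := ((E : ℝ) + 1) * (2 * √(D : ℝ) + ((E : ℝ) + 1) ^ 2)

/-- Statement (1). -/
def DegreeBound : Prop :=
  ∀ (D E : ℕ) (z : ℂ), z ≠ 0 → (Module.finrank Qbar (exponents z D E) : ℝ) ≤ bound D E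

/-- The number `x` is a product `e ^ {R(π)} ∏_j α_j ^ {Q_j(π)}` with polynomials `R`, `Q_j` of degree at
most `E`; here `l_j` are the logarithms of the `α_j` which define the powers. -/
def IsProduct (E : ℕ) (x : ℂ) : Prop :=
  ∃ (r : ℕ) (l : Fin r → ℂ) (R : Qbar[X]) (Q : Fin r → Qbar[X]),
    (∀ j, IsAlgebraic ℚ (Complex.exp (l j))) ∧ R.natDegree ≤ E ∧ (∀ j, (Q j).natDegree ≤ E) ∧
    x = Complex.exp (aeval (Real.pi : ℂ) R + ∑ j, aeval (Real.pi : ℂ) (Q j) * l j)

/-- Statement (2). -/
def OneIsNoProduct : Prop :=
  ∀ (D E m : ℕ) (P : Fin m → Qbar[X]), (∀ i, (P i).natDegree ≤ D) → LinearIndependent Qbar P →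
    bound D E < m →
    ∃ i, ¬ IsProduct E (Complex.exp (aeval (Real.pi : ℂ) (P i) * (Real.log Real.pi : ℝ)))

/-- Statement (3). -/
def FewAlgebraicPowers : Prop :=
  ∀ (D : ℕ) (T : Finset ℕ),
    (∀ n ∈ T, n ≤ D ∧ IsAlgebraic ℚ (Real.pi ^ (Real.pi ^ (n : ℝ)))) →
    (T.card : ℝ) ≤ 2 * √(D : ℝ) + 1

theorem le_LE (E : ℕ) : logPolynomials E ≤ Run7.h788.ExpSp.LE (Real.pi : ℂ) E := by
  refine Submodule.span_le.2 ?_
  rintro w ⟨i, hi, l, hl, rfl⟩
  refine ⟨C l * X ^ i, fun j => ?_, ?_⟩
  · rw [coeff_C_mul_X_pow]
    split_ifs with h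
    · exact ⟨hl, fun h2 => by omega⟩
    · exact ⟨Submodule.zero_mem _, fun _ => rfl⟩
  · rw [Run7.h788.ExpSp.ev_apply, eval_mul, eval_C, eval_pow, eval_X, mul_comm]

theorem degreeBound : DegreeBound := by
  intro D E z hz
  have h1 : exponents z D E ≤
      Run7.h788.ExpSp.polys (Run7.h788.ExpSp.LE (Real.pi : ℂ) E) (Real.pi : ℂ) z D :=
    inf_le_inf_left _ (Submodule.comap_mono (le_LE E))
  have h0 : Module.Finite Qbar (degreeLT Qbar (D + 1)) :=
    Module.Finite.equiv (degreeLTEquiv Qbar (D + 1)).symm
  have : Module.Finite Qbar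
      (Run7.h788.ExpSp.polys (Run7.h788.ExpSp.LE (Real.pi : ℂ) E) (Real.pi : ℂ) z D) :=
    Submodule.finiteDimensional_of_le (inf_le_left :
      Run7.h788.ExpSp.polys (Run7.h788.ExpSp.LE (Real.pi : ℂ) E) (Real.pi : ℂ) z D ≤
        degreeLT Qbar (D + 1))
  have h2 := Submodule.finrank_mono h1
  have h3 := Run7.h788.ExpSp.polys_sqrt_LE Pool.Agent.H340R2.LW.transcendental_pi_complex hz D E
  refine le_trans ?_ h3
  exact_mod_cast h2

theorem mul_mem (E : ℕ) (Q : Qbar[X]) (hQ : Q.natDegree ≤ E) {l : ℂ} (hl : l ∈ LogForms) :
    aeval (Real.pi : ℂ) Q * l ∈ logPolynomials E := by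
  rw [aeval_eq_sum_range' (Nat.lt_succ_of_le hQ), Finset.sum_mul]
  refine Submodule.sum_mem _ fun i hi => ?_
  rw [smul_mul_assoc]
  refine Submodule.smul_mem _ _ (Submodule.subset_span ⟨i, ?_, l, hl, rfl⟩)
  rw [Finset.mem_range] at hi
  omega

/-- **Main result.** -/
theorem result : DegreeBound ∧ OneIsNoProduct ∧ FewAlgebraicPowers := by
  have hlog : ((Real.log Real.pi : ℝ) : ℂ) ≠ 0 := by
    rw [Complex.ofReal_ne_zero]
    exact (Real.log_pos (by linarith [Real.pi_gt_three])).ne'
  refine ⟨degreeBound, ?_, ?_⟩
  · intro D E m P hP hli hm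
    by_contra hno
    push Not at hno
    have h1 : ∀ i, P i ∈ exponents (Real.log Real.pi : ℝ) D E := by
      intro i
      obtain ⟨r, l, R, Q, hl, hR, hQ, h2⟩ := hno i
      refine ⟨?_, ?_⟩
      · rw [SetLike.mem_coe, mem_degreeLT]
        exact lt_of_le_of_lt degree_le_natDegree (by exact_mod_cast Nat.lt_succ_of_le (hP i))
      · rw [Complex.exp_eq_exp_iff_exists_int] at h2
        obtain ⟨n, h3⟩ := h2
        change ((Real.log Real.pi : ℝ) : ℂ) * aeval (Real.pi : ℂ) (P i) ∈ logPolynomials E
        rw [mul_comm, h3]
        have h1mem : (1 : ℂ) ∈ LogForms := Submodule.subset_span (Or.inl rfl)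
        refine Submodule.add_mem _ (Submodule.add_mem _ ?_ (Submodule.sum_mem _ fun j _ =>
          mul_mem E (Q j) (hQ j) (Submodule.subset_span (Or.inr (hl j))))) ?_
        · have := mul_mem E R hR h1mem
          rwa [mul_one] at this
        · refine Submodule.subset_span ⟨0, Nat.zero_le _, _, ?_, by rw [pow_zero, one_mul]⟩
          refine Submodule.subset_span (Or.inr ?_)
          change IsAlgebraic ℚ (Complex.exp ((n : ℂ) * (2 * Real.pi * Complex.I)))
          rw [Complex.exp_int_mul_two_pi_mul_I]
          exact isAlgebraic_one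
    have h2 : Submodule.span Qbar (Set.range P) ≤ exponents (Real.log Real.pi : ℝ) D E := by
      rw [Submodule.span_le]
      rintro _ ⟨i, rfl⟩
      exact h1 i
    have h0 : Module.Finite Qbar (degreeLT Qbar (D + 1)) :=
      Module.Finite.equiv (degreeLTEquiv Qbar (D + 1)).symm
    have : Module.Finite Qbar (exponents (Real.log Real.pi : ℝ) D E) :=
      Submodule.finiteDimensional_of_le
        (inf_le_left : exponents (Real.log Real.pi : ℝ) D E ≤ degreeLT Qbar (D + 1))
    have h3 := Submodule.finrank_mono h2
    rw [finrank_span_eq_card hli, Fintype.card_fin] at h3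
    have h4 := degreeBound D E _ hlog
    have h5 : (m : ℝ) ≤ Module.finrank Qbar (exponents (Real.log Real.pi : ℝ) D E) := by
      exact_mod_cast h3
    linarith
  · intro D T hT
    by_contra hcon
    push Not at hcon
    have hli : LinearIndependent Qbar
        (fun i : Fin T.card => (X : Qbar[X]) ^ (T.orderEmbOfFin rfl i)) := by
      have h1 : LinearIndependent Qbar (fun n : ℕ => (X : Qbar[X]) ^ n) := by
        have := (Polynomial.basisMonomials Qbar).linearIndependent
        simpa only [coe_basisMonomials, monomial_one_right_eq_X_pow] using this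
      exact h1.comp _ (T.orderEmbOfFin rfl).injective
    obtain ⟨i, hi⟩ := Run7.h788.ExpSp.exists_transcendental' (F := ⊥)
      Pool.Agent.H340R2.LW.transcendental_pi_complex hlog (D := D)
      (P := fun i : Fin T.card => (X : Qbar[X]) ^ (T.orderEmbOfFin rfl i))
      (fun i => by
        rw [natDegree_X_pow]
        exact (hT _ (Finset.orderEmbOfFin_mem T rfl i)).1) hli (by
        rw [finrank_bot, Nat.cast_zero, add_zero]
        exact hcon)
    refine hi 0 (Submodule.zero_mem _) ?_
    have h2 := (hT _ (Finset.orderEmbOfFin_mem T rfl i)).2.algebraMap (A := ℂ)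
    have h3 : Complex.exp (((Real.log Real.pi : ℝ) : ℂ) * aeval (Real.pi : ℂ)
        ((X : Qbar[X]) ^ (T.orderEmbOfFin rfl i)) + 0) =
        algebraMap ℝ ℂ (Real.pi ^ (Real.pi ^ ((T.orderEmbOfFin rfl i : ℕ) : ℝ))) := by
      rw [map_pow, aeval_X, add_zero]
      change _ = ((Real.pi ^ (Real.pi ^ ((T.orderEmbOfFin rfl i : ℕ) : ℝ)) : ℝ) : ℂ)
      rw [Real.rpow_def_of_pos Real.pi_pos, Real.rpow_natCast]
      push_cast
      rfl
    rw [h3]
    exact h2

end Pool.Agent.Results.MP_4c2ad3_nt.PolynomialExponents
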