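import Mathlib
import Pool.Agent.Run7.h683.MR.X

set_option autoImplicit false

/-!
# MP_4c2ad3_nt: the polynomials in `π^π` and `π` in random mixed radices

Question Q1 asks whether `π^π` is irrational. We look at the expansions of the values `f(π^π, π)` of the integral
polynomials `f` in two variables in mixed radices: the place values are
`1 / (p_0 p_1 ⋯ p_n)`, where `p_k` are independent random primes, `p_k` uniformly distributed on the primes up to
`(k + 2) ^ θ`, `θ > 1`. The tail of the expansion of `y` after the place `n` is the fractional part of `p_0 ⋯ p_(n-1) y`.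

For every degree `d` there are polynomials `F_N`, which do not depend on the radix, such that

(A) for all large `N`, `F_N = 0`, or `F_N` is irreducible of degree at most `d`, contains the first variable, has
coefficients at most `exp (N ^ a)`, and `|F_N(π^π, π)| < exp (- N ^ b)`, where `0 < a < b < 1`;

(B) `π^π` and `π` satisfy an algebraic relation of degree at most `d` over `ℚ` if and only if `F_N ≠ 0` for all large `N`;

(C) almost surely, for all `d`, for all integral polynomials `f_1, …, f_m` of degree at most `d`, all `L` and `ε > 0`, for all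
large `N`: if the `f_j` are linearly independent modulo the constants and the multiples of `F_N`, the numbers
`f_1(π^π, π), …, f_m(π^π, π)` are jointly equidistributed up to the place `N`, with words of length `L`, up to `ε`.

So at every place the polynomials in `π^π` and `π` of bounded degree which are not jointly equidistributed are accounted
for by the multiples of ONE irreducible polynomial. (Remark, not part of the formal statement: if `π^π = u / v` is
rational, this polynomial is `± (v X - u)` for all large `N`, and for instance the numbers `π^π + π`, `π^(π+1)` and `π` are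
jointly normal in almost all these radices.) The proof works for every real number `t` in place of `π^π`.

Proof. The second moment of the exponential sums of one number `y` up to the place `N` is small unless `y` is very close
to a rational number with a denominator `≤ exp (N ^ a)` (bilinear sums over the last two primes, and a descent; see
MP_5b6025_nt.RandomMixedRadix). If this happens for `y = ∑ c_j f_j(π^π, π)`, then the value of an integral polynomial of
degree `≤ d` is extremely small in terms of its height; by helper168's theorem (MP_a2f59b_nt.NearAlgebraicRelations), which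
rests on the transcendence measure of `π`, all such polynomials at one height are multiples of one irreducible
polynomial.
-/

namespace Pool.Agent.Results.MP_4c2ad3_nt.PolynomialsInRandomRadices

open Filter Topology MeasureTheory ProbabilityTheory

/-- the primes up to `(k + 2) ^ θ` -/
noncomputable def primes (θ : ℝ) (k : ℕ) : Finset ℕ := Nat.primesLE ⌊((k : ℝ) + 2) ^ θ⌋₊

/-- `p 0, p 1, …` are independent random primes, `p k` is uniformly distributed on the primes up to `(k + 2) ^ θ` -/
structure RandomPrimes (θ : ℝ) {Ω : Type} [MeasurableSpace Ω] (P : Measure Ω) (p : ℕ → Ω → ℕ) : Prop where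
  mem : ∀ k ω, p k ω ∈ primes θ k
  indep : iIndepFun p P
  uniform : ∀ k, ∀ q ∈ primes θ k, P.real {ω | p k ω = q} = 1 / ((primes θ k).card : ℝ)

/-- the product `p 0 ⋯ p (n - 1)` -/
def prod (p : ℕ → ℕ) (n : ℕ) : ℕ := ∏ k ∈ Finset.range n, p k

/-- the numbers `x i` are jointly equidistributed in the mixed radix `p` up to the place `N`, with words of length `L`
and up to the error `ε`: for all boxes the number of the places `n < N`, such that the fractional parts of
`p 0 ⋯ p (n + l - 1) * x i`, `l < L`, are in the box, is equal to the volume of the box times `N` up to `ε N` -/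
def Equi (p : ℕ → ℕ) {m : ℕ} (x : Fin m → ℝ) (L N : ℕ) (ε : ℝ) : Prop :=
  ∀ u w : Fin L → Fin m → ℝ, (∀ l i, 0 ≤ u l i ∧ u l i ≤ w l i ∧ w l i ≤ 1) →
    |(((Finset.range N).filter fun n => ∀ l i, u l i ≤ Int.fract ((prod p (n + (l : ℕ)) : ℝ) * x i) ∧
      Int.fract ((prod p (n + (l : ℕ)) : ℝ) * x i) < w l i).card : ℝ) - (∏ l, ∏ i, (w l i - u l i)) * N| ≤ ε * N

/-- the value of a polynomial in two variables at `(π^π, π)` -/
noncomputable def value (f : MvPolynomial (Fin 2) ℤ) : ℝ := MvPolynomial.aeval ![Real.pi ^ Real.pi, Real.pi] f

/-- the polynomials `f j` are linearly independent modulo the multiples of `F` and the constants -/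
def FreeModulo {m : ℕ} (F : MvPolynomial (Fin 2) ℤ) (f : Fin m → MvPolynomial (Fin 2) ℤ) : Prop :=
  ∀ (c : Fin m → ℤ) (u : ℤ), F ∣ ∑ j, MvPolynomial.C (c j) * f j - MvPolynomial.C u → c = 0

open Run7.h683.MR in
/-- In almost all the mixed radices of random primes all tuples of integral polynomials in `π^π` and `π` are jointly
equidistributed up to `N`, if they are linearly independent modulo constants and multiples of one irreducible
polynomial; this polynomial is there for all large `N` if and only if `π^π` and `π` are algebraically dependent. -/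
theorem result (θ : ℝ) (hθ : 1 < θ) :
    ∃ a b : ℝ, 0 < a ∧ a < b ∧ b < 1 ∧ ∃ F : ℕ → ℕ → MvPolynomial (Fin 2) ℤ,
      -- (A) the exceptional polynomials
      (∀ d : ℕ, 1 ≤ d → ∀ᶠ N : ℕ in atTop, F d N = 0 ∨
        (Irreducible (F d N) ∧ 0 < (F d N).degreeOf 0 ∧ (F d N).totalDegree ≤ d ∧
          (∀ s, |(((F d N).coeff s : ℤ) : ℝ)| ≤ Real.exp ((N : ℝ) ^ a)) ∧
          |value (F d N)| < Real.exp (-(N : ℝ) ^ b))) ∧
      -- (B) algebraic dependence
      (∀ d : ℕ, 1 ≤ d → ((∃ R : MvPolynomial (Fin 2) ℤ, R ≠ 0 ∧ R.totalDegree ≤ d ∧ value R = 0) ↔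
        ∀ᶠ N : ℕ in atTop, F d N ≠ 0)) ∧
      -- (C) equidistribution outside the multiples of `F d N`
      (∀ (Ω : Type) [MeasurableSpace Ω] (P : Measure Ω) [IsProbabilityMeasure P] (p : ℕ → Ω → ℕ),
        RandomPrimes θ P p → ∀ᵐ ω ∂P, ∀ d : ℕ, 1 ≤ d → ∀ (m : ℕ) (f : Fin m → MvPolynomial (Fin 2) ℤ),
          (∀ j, (f j).totalDegree ≤ d) → ∀ (L : ℕ) (ε : ℝ), 0 < ε → ∀ᶠ N : ℕ in atTop, FreeModulo (F d N) f →
            Equi (fun k => p k ω) (fun j => value (f j)) L N ε) ∧
      -- such random primes exist
      ∃ (Ω : Type) (_ : MeasurableSpace Ω) (P : Measure Ω) (_ : IsProbabilityMeasure P) (p : ℕ → Ω → ℕ),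
        RandomPrimes θ P p := by
  obtain ⟨a, b, ha, hab, hb, h⟩ := poly_structure.{0} (growth θ hθ)
  obtain ⟨F, hF1, hF2⟩ := h 1 ![Real.pi] measM_pi (Real.pi ^ Real.pi)
  have hv : ∀ f : MvPolynomial (Fin 2) ℤ, pv (Real.pi ^ Real.pi) ![Real.pi] f = value f := by
    intro f
    rw [pv_eq, cons_pair]
    rfl
  refine ⟨a, b, ha, hab, hb, F, fun d hd => ?_, fun d hd => ?_, ?_, ?_⟩
  · filter_upwards [(hF1 d hd).1] with N hN
    rw [← hv]
    exact hN
  · have h1 := (hF1 d hd).2
    simp only [hv] at h1
    exact h1
  · intro Ω _ P _ p hp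
    filter_upwards [hF2 Ω P p (uniform_of_indep hp.mem hp.indep hp.uniform)] with ω hω
    intro d hd m f hf L ε hε
    filter_upwards [hω d hd m f hf L ε hε] with N hN
    intro hfree
    have h2 := hN hfree
    simp only [hv] at h2
    exact h2
  · obtain ⟨Ω, i1, P, i2, p, h5, h6, h7⟩ := exists_uniform (Sk θ) (growth θ hθ).ne
    exact ⟨Ω, i1, P, i2, p, ⟨h5, h6, h7⟩⟩

end Pool.Agent.Results.MP_4c2ad3_nt.PolynomialsInRandomRadices
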