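import Pool.Agent.Run7.h119.RX.RandR
import Pool.Agent.H340R2.LW

/-!
# The powers `π ^ {P(π)}` for random polynomials `P`

The number `π ^ π` is the member `P = X` of the family `π ^ {P(π)}`.  We take polynomials whose coefficients
are independent random algebraic numbers: `P = ∑ ξ_e X^e`, where no `ξ_e` takes any value with probability
larger than `p`, `p < 1`.  The distributions of the `ξ_e` may be different and are arbitrary; examples are
independent random signs (`p = 1/2`), random integers in `[-M, M]` (`p = 1/(2M+1)`), random algebraic numbers.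

Let `LogForms` be the space of the linear forms in `1` and logarithms of algebraic numbers, with algebraic
coefficients, and let `F` be any space of complex numbers of finite dimension `N` over the field of algebraic
numbers.

**Theorem.** (1) For all complex `t_1, …, t_n`, all `c ≠ 0` and random polynomials `P` in `n` variables of degree
less than `D` in each variable, the probability that `c P(t_1, …, t_n)` is in `LogForms + F` is at most
`p ^ (H - (4^n + 1) √H - N)`, where `H` is the dimension over the algebraic numbers of the space of the values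
at `(t_1, …, t_n)` of the polynomials of degree less than `D` in each variable with algebraic coefficients.

(2) Let `a > 0`, `a ≠ 1` be real and let `t` be real and transcendental.  For random real polynomials `P` of
degree at most `D` the probability that `e^f a^{P(t)}` is algebraic for some `f` in `F` is at most
`p ^ (D - 2 √D - N)`.

(3) Let `ξ_0, ξ_1, …` be an infinite sequence of independent random real algebraic numbers as above and let
`P_D = ∑_{j ≤ D} ξ_j X^j`.  Almost surely, all but finitely many of the numbers `a^{P_D(t)}`, `D = 0, 1, 2, …`, are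
transcendental, and moreover the same is true for all numbers `e^f a^{P_D(t)}`, `f ∈ F`, at the same time.

(4) In particular, for almost all sequences of signs `ξ_j` all but finitely many of the numbers
`π ^ {P_D(π)}`, `P_D = ∑_{j ≤ D} ξ_j X^j`, are transcendental.

It is known that at most `2 √D + 1` of the numbers `π ^ {π ^ n}`, `n ≤ D`, are algebraic
(`MP_4c2ad3_nt.PolynomialExponents`, helper788); this says that the exceptional polynomials form a space of small
dimension.  The new part is the probabilistic form: a random point with independent coordinates is in a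
given subspace of codimension `d` with probability at most `p^d`, for all distributions of the coordinates, and
the several variables bound (1), see also `MP_93d8d2_nt.RingExponents`.
-/

set_option autoImplicit false

noncomputable section

namespace Pool.Agent.Results.MP_4c2ad3_nt.RandomExponents

open MeasureTheory ProbabilityTheory Filter Finset

/-- The field of algebraic numbers. -/
abbrev Qbar : IntermediateField ℚ ℂ := algebraicClosure ℚ ℂ

/-- The linear combinations, with algebraic coefficients, of `1` and logarithms of algebraic numbers. -/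
def LogForms : Submodule Qbar ℂ :=
  Submodule.span Qbar ({1} ∪ {z : ℂ | IsAlgebraic ℚ (Complex.exp z)})

/-- The dimension of the space of the values at `(t_1, …, t_n)` of the polynomials with algebraic coefficients
of degree less than `D` in each variable. -/
def dimV {n : ℕ} (t : Fin n → ℂ) (D : ℕ) : ℕ :=
  Module.finrank Qbar (Submodule.span Qbar
    (Set.range fun e : Fin n → Fin D => ∏ i, t i ^ (e i : ℕ)))

/-- The `ξ_i` are independent random numbers, they are algebraic, and none of them takes any value with a
probability larger than `p`.  The index `i` runs through a finite or infinite set, the numbers are real or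
complex (`K`). -/
structure Coefficients {Ω : Type} [MeasurableSpace Ω] (μ : Measure Ω) {ι : Type} (K : Type) [Field K]
    [Algebra ℚ K] [MeasurableSpace K] (ξ : ι → Ω → K) (p : ℝ) : Prop where
  measurable : ∀ i, Measurable (ξ i)
  independent : iIndepFun ξ μ
  algebraic : ∀ i ω, IsAlgebraic ℚ (ξ i ω)
  atoms : ∀ i x, μ.real {ω | ξ i ω = x} ≤ p

/-- Statement (1). -/
def SeveralNumbers : Prop :=
  ∀ (F : Submodule Qbar ℂ), Module.Finite Qbar F → ∀ (n : ℕ) (t : Fin n → ℂ) (c : ℂ), c ≠ 0 →
    ∀ D : ℕ, 1 ≤ D → ∀ (Ω : Type) (_ : MeasurableSpace Ω) (μ : Measure Ω), IsProbabilityMeasure μ →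
      ∀ (p : ℝ) (ξ : (Fin n → Fin D) → Ω → ℂ), 0 < p → p ≤ 1 → Coefficients μ ℂ ξ p →
        μ.real {ω | c * ∑ e, ξ e ω * ∏ i, t i ^ (e i : ℕ) ∈ LogForms ⊔ F} ≤
          p ^ ((dimV t D : ℝ) - (4 ^ n + 1) * √(dimV t D : ℝ) - Module.finrank Qbar F)

/-- Statement (2). -/
def OneNumber : Prop :=
  ∀ (F : Submodule Qbar ℂ), Module.Finite Qbar F → ∀ a t : ℝ, 0 < a → a ≠ 1 → Transcendental ℚ t →
    ∀ (D : ℕ) (Ω : Type) (_ : MeasurableSpace Ω) (μ : Measure Ω), IsProbabilityMeasure μ →
      ∀ (p : ℝ) (ξ : Fin (D + 1) → Ω → ℝ), 0 < p → p ≤ 1 → Coefficients μ ℝ ξ p →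
        μ.real {ω | ∃ f ∈ F, IsAlgebraic ℚ (Complex.exp f *
          ((a ^ (∑ e, ξ e ω * t ^ (e : ℕ)) : ℝ) : ℂ))} ≤
          p ^ ((D : ℝ) - 2 * √(D : ℝ) - Module.finrank Qbar F)

/-- Statement (3). -/
def AlmostSurely : Prop :=
  ∀ (F : Submodule Qbar ℂ), Module.Finite Qbar F → ∀ a t : ℝ, 0 < a → a ≠ 1 → Transcendental ℚ t →
    ∀ (Ω : Type) (_ : MeasurableSpace Ω) (μ : Measure Ω), IsProbabilityMeasure μ →
      ∀ (p : ℝ) (ξ : ℕ → Ω → ℝ), 0 < p → p < 1 → Coefficients μ ℝ ξ p →
        ∀ᵐ ω ∂μ, ∀ᶠ D : ℕ in atTop, ∀ f ∈ F, Transcendental ℚ (Complex.exp f *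
          ((a ^ (∑ j ∈ range (D + 1), ξ j ω * t ^ j) : ℝ) : ℂ))

/-- Statement (4). -/
def PowersOfPi : Prop :=
  ∀ (Ω : Type) (_ : MeasurableSpace Ω) (μ : Measure Ω), IsProbabilityMeasure μ →
    ∀ (p : ℝ) (ξ : ℕ → Ω → ℝ), 0 < p → p < 1 → Coefficients μ ℝ ξ p →
      ∀ᵐ ω ∂μ, ∀ᶠ D : ℕ in atTop,
        Transcendental ℚ (Real.pi ^ (∑ j ∈ range (D + 1), ξ j ω * Real.pi ^ j) : ℝ)

theorem almostSurely : AlmostSurely := by
  intro F hF a t ha0 ha1 ht Ω mΩ μ hμ p ξ hp0 hp1 h
  have hq : 0 < - Real.log p := by
    have := Real.log_neg hp0 hp1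
    linarith
  have h1 := Run7.h119.RX.ae_real F (fun _ => {(a, t)}) (by
    intro D b hb
    rw [Finset.mem_singleton] at hb
    rw [hb]
    exact ⟨ha0, ha1, ht⟩) μ ξ h.measurable h.independent h.algebraic hp0 hp1 h.atoms 1 0
    zero_le_one hq (fun D => by simp)
  filter_upwards [h1] with ω hω
  filter_upwards [hω] with D hD
  exact hD (a, t) (Finset.mem_singleton_self _)

/-- **Main result.** -/
theorem result : SeveralNumbers ∧ OneNumber ∧ AlmostSurely ∧ PowersOfPi := by
  refine ⟨?_, ?_, almostSurely, ?_⟩
  · intro F hF n t c hc D hD Ω mΩ μ hμ p ξ hp0 hp1 h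
    exact Run7.h119.RX.prob_box F t hc hD μ ξ h.measurable h.independent h.algebraic hp0 hp1 h.atoms
  · intro F hF a t ha0 ha1 ht D Ω mΩ μ hμ p ξ hp0 hp1 h
    have h1 := Run7.h119.RX.prob_union_real F {(a, t)} (by
      intro b hb
      rw [Finset.mem_singleton] at hb
      rw [hb]
      exact ⟨ha0, ha1, ht⟩) D μ ξ h.measurable h.independent h.algebraic hp0 hp1 h.atoms
    rw [Finset.card_singleton, Nat.cast_one, one_mul] at h1
    refine (measureReal_mono ?_).trans h1
    rintro ω hω
    exact ⟨(a, t), Finset.mem_singleton_self _, hω⟩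
  · intro Ω mΩ μ hμ p ξ hp0 hp1 h
    have hpi : (1 : ℝ) < Real.pi := by linarith [Real.pi_gt_three]
    have h1 := almostSurely ⊥ inferInstance Real.pi Real.pi Real.pi_pos hpi.ne'
      Pool.Agent.H340R2.LW.transcendental_pi Ω mΩ μ hμ p ξ hp0 hp1 h
    filter_upwards [h1] with ω hω
    filter_upwards [hω] with D hD halg
    refine hD 0 (Submodule.zero_mem _) ?_
    rw [Complex.exp_zero, one_mul]
    exact halg.algebraMap (A := ℂ)

end Pool.Agent.Results.MP_4c2ad3_nt.RandomExponents
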