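import Mathlib
import Pool.Agent.Run7.h360.CF.Pow

/-!
# The continued fractions and the digits of `π^π` and of `π^(i+jπ)`

Question Q1 asks if `π^π` is irrational.  We compare the descriptions of the powers of `π` whose exponents
are dependent over the rational numbers together with `1`, such as `π^(i+jπ)` for integers `i, j`.

Let `y = [a_0; a_1, a_2, …]` be the regular continued fraction of a real number, `q_i` the denominators
of its convergents.  The places `u+1, …, v` are *copied at the price `N`* if, with the exception of
places up to some `s` with `q_s ≤ e^N q_u`, the partial quotients `a_i` at these places are equal to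
the partial quotients `a_{i-d}` for one `d > 0` (`Copied`; the copied part may begin at any earlier
place and may overlap its copy, so that all periodic stretches with a short period are included).  A
number `y` is *simple up to the scale `X` with the parameters `r, K, N`* (`Simple`) if

* after the removal of at most `K` places all stretches of the partial quotients `a_{i+1}` with
  `q_i ≤ e^X` are copied at the price `N`; or
* for some base `b`, after the removal of at most `K` places all stretches `u+1, …, v ≤ L` of the
  digits, `X ≤ L log b`, are terms of sequences whose power series satisfy modulo `t^(v+1)` an algebraic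
  equation of degree `≤ r` with coefficients of degree `≤ k + r u`, `(k+1) log b ≤ N`; or
* the fractional part `z` of `y` satisfies `|P(z)| ≤ e^(-X)` for an integer polynomial `P ≠ 0` of degree
  `≤ r` with coefficients `≤ e^N`.

So `K` is the number of the breaks, `N` the price of the description and `X` the length.  We prove, at every scale `X`:

* for a finite family of real numbers `β_i` the ℚ-span of the `β_i`, for which some Möbius image (with
  integral coefficients of height `≤ H`) of `π^(β_i)` is simple, contains no rational number except `0`;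
* in particular the integral points `(i, j)`, `|i|, |j| ≤ D`, for which some Möbius image of `π^(i+jπ)` is
  simple, are on one line through the origin.  So at most one of the numbers
  `π^π, π^(π+1), π^(π+2), …, π^(2π+1), …` (exponents which are not proportional) has a simple continued
  fraction up to the scale `X`, or simple digits in some base, or good approximations by algebraic numbers
  of bounded degree;
* if some number `π^(k+lπ)` is algebraic, `(k, l) ≠ 0` (for example if `π^π` is rational), then at all large
  scales all numbers `π^(i+jπ)`, `(i, j)` not proportional to `(k, l)`, and their Möbius images have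
  complicated continued fractions and digits.

Here simple means: with `K` breaks and at a price `N` with `A^(K+1) (N + log H + 1) < X`, where `A` does not
depend on `H`, `K`, `N`, `X` and the Möbius transformations.

Proof.  A copy at the places `s+1, …, v` of the continued fraction gives the quadratic polynomial
`(q_{r-1} X - p_{r-1}) (q_s X - p_s) - (q_{s-1} X - p_{s-1}) (q_r X - p_r)`, whose value at `y` is, up to the
sign, not changed by a common letter and so at most `2 / q_v`; its leading coefficient is not zero.  The
breaks of the descriptions divide the interval `[0, X]` of scales into few intervals, and on each of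
them all the numbers have integer polynomials with small coefficients and a very small value
(`Pool.Agent.Run7.h360.CF`).  Möbius images transform these polynomials.  The number `π` is algebraic over the
field of the powers with dependent exponents; so these have a joint measure (helper168, `Run7.h168.Mult`),
which comes from the transcendence measure of `π`.  At the level of single exponents, the fact that at most
one of the `π^(π+q)`, `q` rational, is algebraic is trivial; the comparison of the continued fractions and
of the digits at every scale is new.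
-/

set_option autoImplicit false

namespace Pool.Agent.Results.MP_4c2ad3_nt.SimplePowersOfPi

open Polynomial

/-- the partial quotient `a_{i+1}` of `y = [a_0; a_1, a_2, …]` (`none` if the continued fraction has ended) -/
noncomputable def letter (y : ℝ) (i : ℕ) : Option ℝ := (GenContFract.of y).partDens.get? i

/-- the denominator `q_i` of `[a_0; a_1, …, a_i]` (the last denominator if the continued fraction has
ended) -/
noncomputable def den (y : ℝ) (i : ℕ) : ℝ := (GenContFract.of y).dens i

/-- the places `u+1, …, v` are copied at the price `N`: up to the place `s`, `q_s ≤ e^N q_u`, they are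
arbitrary, and from then on the partial quotients are equal to those `s - r` places before -/
def Copied (y : ℝ) (N : ℝ) (u v : ℕ) : Prop :=
  ∃ r s, r < s ∧ den y s ≤ Real.exp N * den y u ∧ ∀ i, s ≤ i → i < v → letter y i = letter y (i - (s - r))

/-- the partial quotients `a_{i+1}` with `q_i ≤ e^X` are copied at the price `N` on all stretches which
contain none of at most `K` places -/
def Pieces (y : ℝ) (K : ℕ) (N X : ℝ) : Prop :=
  ∃ T : Finset ℕ, T.card ≤ K ∧ ∀ u v, u < v → den y (v - 1) ≤ Real.exp X → (∀ t ∈ T, t ≤ u ∨ v < t) →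
    Copied y N u v

/-- the `i`-th digit of `y` after the point in base `b` -/
noncomputable def digit (b : ℕ) (y : ℝ) (i : ℕ) : ℤ := ⌊y * (b : ℝ) ^ i⌋ % (b : ℤ)

/-- the polynomial `s_1 X + s_2 X^2 + ⋯ + s_L X^L` -/
noncomputable def seqPoly (s : ℕ → ℤ) (L : ℕ) : ℚ[X] := ∑ l ∈ Finset.Icc 1 L, C (s l : ℚ) * X ^ l

/-- there is a nonzero polynomial `P(X, Y)` over `ℚ` of degree `≤ r` in `Y` and `≤ k` in `X` such
that `P(X, S(X))` is divisible by `X^(L+1)`, where `S` is the polynomial of the first `L` terms
of `s` -/
def AlgRelation (s : ℕ → ℤ) (r L k : ℕ) : Prop :=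
  ∃ P : ℚ[X][X], P ≠ 0 ∧ P.natDegree ≤ r ∧ (∀ j, (P.coeff j).natDegree ≤ k) ∧
    X ^ (L + 1) ∣ P.eval (seqPoly s L)

/-- the digits of `y` at the places `u+1, …, v` are the terms at these places of a sequence `s` of base `b`
digits, and the first `v` terms of `s` satisfy an algebraic relation of degree `≤ r` with coefficients of
degree `≤ k + r u` -/
def Described (b : ℕ) (y : ℝ) (r k u v : ℕ) : Prop :=
  ∃ s : ℕ → ℤ, (∀ l, 0 ≤ s l ∧ s l < b) ∧ (∀ l, u < l → l ≤ v → s l = digit b y l) ∧
    AlgRelation s r v (k + r * u)

/-- the first `L` digits of `y` are described on all stretches which contain none of at most `K` places -/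
def PieceByPiece (b : ℕ) (y : ℝ) (r K L k : ℕ) : Prop :=
  ∃ T : Finset ℕ, T.card ≤ K ∧
    ∀ u v, u ≤ v → v ≤ L → (∀ t ∈ T, t ≤ u ∨ v < t) → Described b y r k u v

/-- the fractional part of `y` almost satisfies an algebraic equation -/
def NearAlg (r : ℕ) (N X y : ℝ) : Prop :=
  ∃ P : ℤ[X], P ≠ 0 ∧ P.natDegree ≤ r ∧ (∀ i, |((P.coeff i : ℤ) : ℝ)| ≤ Real.exp N) ∧
    |(aeval (Int.fract y) P : ℝ)| ≤ Real.exp (-X)

/-- `y` is simple up to the scale `X`, with `K` breaks and at the price `N` -/
def Simple (r K : ℕ) (N X y : ℝ) : Prop :=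
  Pieces y K N X ∨
    (∃ b k L : ℕ, 2 ≤ b ∧ (k + 1) * Real.log b ≤ N ∧ X ≤ L * Real.log b ∧ PieceByPiece b y r K L k) ∨
    NearAlg r N X y

/-- `y` is the image of `w` under a Möbius transformation with integral coefficients of height `≤ H`, and
`|y| ≤ H` -/
def Image (H w y : ℝ) : Prop :=
  |y| ≤ H ∧ ∃ a b c d : ℤ, a * d - b * c ≠ 0 ∧ |(a : ℝ)| ≤ H ∧ |(b : ℝ)| ≤ H ∧ |(c : ℝ)| ≤ H ∧ |(d : ℝ)| ≤ H ∧
    y * (c * w + d) = a * w + b

/-- **(1)** Let `β_i` be a finite family of real numbers.  For every `r` there is `A ≥ 1` such that, at every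
scale `X`: if for the `i` in `J` the number `y_i` is a Möbius image of height `≤ H` of `π^(β_i)` and simple up
to `X` with `K_i` breaks at the price `N_i`, and `A^(∑ K_i + 1) (∑ N_i + log H + 1) < X`, then no nonzero
integer is an integral linear combination of the `β_i`, `i` in `J` (so their ℚ-span contains no rational
number except `0`).

**(2)** For all `D`, `r` there is `A ≥ 1` such that, if `(i, j)` and `(k, l)` are integral points with
coordinates `≤ D` which are not proportional, and two Möbius images of height `≤ H` of `π^(i+jπ)` and of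
`π^(k+lπ)` are simple up to `X` with `K`, `K'` breaks at the prices `N`, `N'`, then
`X ≤ A^(K+K'+1) (N + N' + log H + 1)`.

**(3)** If `π^(k+lπ)` is algebraic of degree at most `r` (for example `(k, l) = (0, 1)` and `π^π` is rational),
then for every `D ≥ |k|, |l|` there is `A ≥ 1` such that, if a Möbius image of height `≤ H` of a number
`π^(i+jπ)`, `|i|, |j| ≤ D`, `(i, j)` not proportional to `(k, l)`, is simple up to `X` with `K` breaks at the
price `N`, then `X ≤ A^(K+1) (N + log H + 1)`. -/
theorem result :
    (∀ (κ : Type) [Fintype κ] [DecidableEq κ] (β : κ → ℝ) (r : ℕ), ∃ A : ℝ, 1 ≤ A ∧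
      ∀ (H : ℝ) (J : Finset κ) (y : κ → ℝ) (K : κ → ℕ) (N : κ → ℝ) (X : ℝ), 1 ≤ H →
        (∀ i ∈ J, Image H (Real.pi ^ β i) (y i) ∧ 0 ≤ N i ∧ Simple r (K i) (N i) X (y i)) →
        A ^ (∑ i ∈ J, K i + 1) * (∑ i ∈ J, N i + Real.log H + 1) < X →
        ∀ (c : κ → ℤ) (n : ℤ), ∑ i ∈ J, (c i : ℝ) * β i = n → n = 0) ∧
    (∀ D r : ℕ, ∃ A : ℝ, 1 ≤ A ∧ ∀ i j k l : ℤ, |i| ≤ D → |j| ≤ D → |k| ≤ D → |l| ≤ D → i * l - j * k ≠ 0 →
      ∀ (H y y' : ℝ) (K K' : ℕ) (N N' X : ℝ), 1 ≤ H → Image H (Real.pi ^ ((i : ℝ) + j * Real.pi)) y →
        Image H (Real.pi ^ ((k : ℝ) + l * Real.pi)) y' → 0 ≤ N → 0 ≤ N' → Simple r K N X y →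
        Simple r K' N' X y' → X ≤ A ^ (K + K' + 1) * (N + N' + Real.log H + 1)) ∧
    ∀ (D r : ℕ) (k l : ℤ), |k| ≤ D → |l| ≤ D →
      (∃ P : ℤ[X], P ≠ 0 ∧ P.natDegree ≤ r ∧ aeval (Real.pi ^ ((k : ℝ) + l * Real.pi)) P = 0) →
      ∃ A : ℝ, 1 ≤ A ∧ ∀ i j : ℤ, |i| ≤ D → |j| ≤ D → i * l - j * k ≠ 0 →
        ∀ (H y : ℝ) (K : ℕ) (N X : ℝ), 1 ≤ H →
        Image H (Real.pi ^ ((i : ℝ) + j * Real.pi)) y → 0 ≤ N → Simple r K N X y →
        X ≤ A ^ (K + 1) * (N + Real.log H + 1) := by
  have hx : Pool.Agent.TH456.TM.MeasT ((Real.pi : ℝ) : ℂ) :=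
    Pool.Agent.R473.JC.measT_three _ (Or.inr (Or.inl rfl))
  have hpi := Real.pi_pos
  have hmon : ∀ i j : ℤ, Real.pi ^ i * (Real.pi ^ Real.pi) ^ j = Real.pi ^ ((i : ℝ) + j * Real.pi) := by
    intro i j
    rw [← Real.rpow_intCast, ← Real.rpow_intCast, ← Real.rpow_mul hpi.le, ← Real.rpow_add hpi]
    congr 1
    ring
  have hz : Real.pi ^ Real.pi ≠ 0 := (Real.rpow_pos_of_pos hpi _).ne'
  refine ⟨?_, ?_, ?_⟩
  · intro κ _ _ β r
    obtain ⟨A, hA, h⟩ := Run7.h360.CF.simple_powers Real.pi hx hpi β r
    exact ⟨A, hA, fun H J y K N X hH hs hX c n hc => h H J y K N X hH hs hX c n hc⟩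
  · intro D r
    obtain ⟨A, hA, h⟩ := Run7.h360.CF.simple_line Real.pi hx (Real.pi ^ Real.pi) hz D r
    refine ⟨A, hA, fun i j k l hi hj hk hl hd H y y' K K' N N' X hH hy hy' hN hN' hs hs' => ?_⟩
    exact h i j k l hi hj hk hl hd H y y' K K' N N' X hH (by rw [hmon]; exact hy) (by rw [hmon]; exact hy')
      hN hN' hs hs'
  · intro D r k l hk hl halg
    obtain ⟨A, hA, h⟩ := Run7.h360.CF.simple_line_alg Real.pi hx (Real.pi ^ Real.pi) hz D r k l hk hl
      (by rw [hmon]; exact halg)
    refine ⟨A, hA, fun i j hi hj hd H y K N X hH hy hN hs => ?_⟩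
    exact h i j hi hj hd H y K N X hH (by rw [hmon]; exact hy) hN hs

end Pool.Agent.Results.MP_4c2ad3_nt.SimplePowersOfPi
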